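import Pool.Agent.VTP.StmtsA
import Mathlib.RingTheory.PowerSeries.Binomial

/-! Squad VTP, row QEX: the binomial series. -/

set_option autoImplicit false

namespace Pool.Agent.VTP.H98

open Finset Pool.Agent.ZOL Pool.Agent.VTP

theorem qq_eq (n : ℤ) : qq n = PowerSeries.binomialSeries ℤ n := by
  ext k
  rw [PowerSeries.binomialSeries_coeff, qq, PowerSeries.coeff_mk]
  simp

theorem qex : QexStmt := by
  refine ⟨⟨?_, ?_⟩, ?_, ?_⟩
  · rw [qq_eq, PowerSeries.binomialSeries_zero]
  · intro m n
    rw [qq_eq, qq_eq, qq_eq, PowerSeries.binomialSeries_add]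
  · have h := PowerSeries.binomialSeries_nat (R := ℤ) (A := ℤ) 1
    rw [qq_eq]
    simpa using h
  · intro n
    rw [PowerSeries.X_dvd_iff, map_sub, qq_eq, PowerSeries.binomialSeries_constantCoeff]
    simp

end Pool.Agent.VTP.H98
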